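import Pool.Agent.Results.MP_8652de_gt.NotHurewicz

/-!
# Continuous bijections from zero-dimensional Hurewicz spaces

Let `f : Y → Z` be a continuous injection of a Hurewicz space `Y` with `ind Y ≤ 0` in a Hausdorff
space `Z`. Then every compact subset of `f (Y)` has `ind ≤ 0`. If `f` is a bijection and `Z` is
regular and `σ`-compact, then `ind Z ≤ 0`. In particular the answer to the question is positive for
all regular Hausdorff `σ`-compact topologies `T₂`, not only for the compact ones.
-/

set_option autoImplicit false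

namespace Pool.Agent.Results.MP_8652de_gt.SigmaCompactTargets

open Set Topology Filter TopologicalSpace
open Pool.Agent.Results.MP_8652de_gt.NotHurewicz

universe u v

theorem indLE_zero_of_totallyDisconnected (K : Type v) [TopologicalSpace K] [CompactSpace K]
    [T2Space K] [TotallyDisconnectedSpace K] : IndLE 0 K := by
  intro p O hO hp
  obtain ⟨U, hU, hpU, hUO⟩ := compact_exists_isClopen_in_isOpen hO hp
  exact ⟨U, hU.isOpen, hpU, hUO, isClopen_iff_frontier_eq_empty.1 hU⟩

/-- Compact subsets of the image of a continuous injection of a zero-dimensional Hurewicz space are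
totally disconnected. -/
theorem compact_subset (Y : Type u) (Z : Type v) [tY : TopologicalSpace Y] [tZ : TopologicalSpace Z]
    [T2Space Z] (f : Y → Z) (hY : Hurewicz Y) (hind : ind Y ≤ 0) (hf : Continuous f)
    (hinj : Function.Injective f) (K : Set Z) (hK : IsCompact K) (hKf : K ⊆ range f) :
    TotallyDisconnectedSpace K := by
  have hKc : CompactSpace K := isCompact_iff_compactSpace.1 hK
  have h0 := indLE_zero_of_ind hind
  have hg : ∀ z : K, ∃ y, f y = z := fun z => hKf z.2
  choose g hg using hg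
  have hrange : range g = f ⁻¹' K := by
    ext y
    constructor
    · rintro ⟨z, rfl⟩
      show f (g z) ∈ K
      rw [hg]
      exact z.2
    · intro hy
      exact ⟨⟨f y, hy⟩, hinj (by rw [hg])⟩
  have hclosed : IsClosed (range g) := by
    rw [hrange]
    exact hK.isClosed.preimage hf
  let T₁ : TopologicalSpace K := tY.induced g
  have hval : (Subtype.val : K → Z) = f ∘ g := by
    funext z
    exact (hg z).symm
  have hle : T₁ ≤ (instTopologicalSpaceSubtype : TopologicalSpace K) := by
    have h1 : (instTopologicalSpaceSubtype : TopologicalSpace K) = (tZ.induced f).induced g := by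
      rw [induced_compose, ← hval]
      rfl
    rw [h1]
    exact induced_mono (continuous_iff_le_induced.1 hf)
  have hcont : @Continuous K Y T₁ tY g := continuous_induced_dom
  refine main T₁ (instTopologicalSpaceSubtype : TopologicalSpace K) hle hKc inferInstance ?_ ?_
  · intro p V hV hp
    obtain ⟨W, hW, rfl⟩ := hV
    obtain ⟨U, hU, hpU, hUW, hfr⟩ := h0 (g p) W hW hp
    have hUc : IsClopen U := isClopen_iff_frontier_eq_empty.2 hfr
    exact ⟨g ⁻¹' U, @IsClopen.preimage K Y T₁ tY U hUc g hcont, hpU, preimage_mono hUW⟩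
  · intro 𝒰 h𝒰
    obtain ⟨𝒱, h𝒱, hx⟩ := hY (fun n => {W | IsOpen W ∧ g ⁻¹' W ∈ 𝒰 n} ∪ {(range g)ᶜ})
      (fun n => by
        constructor
        · rintro W (hW | rfl)
          · exact hW.1
          · exact hclosed.isOpen_compl
        · rw [eq_univ_iff_forall]
          intro y
          by_cases hy : y ∈ range g
          · obtain ⟨z, rfl⟩ := hy
            have hz : z ∈ ⋃₀ 𝒰 n := by rw [(h𝒰 n).2]; exact mem_univ z
            obtain ⟨U, hU, hzU⟩ := hz
            obtain ⟨W, hW, rfl⟩ := (h𝒰 n).1 U hU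
            exact ⟨W, Or.inl ⟨hW, hU⟩, hzU⟩
          · exact ⟨(range g)ᶜ, Or.inr rfl, hy⟩)
    refine ⟨fun n => {U | U ∈ 𝒰 n ∧ ∃ W ∈ 𝒱 n, U = g ⁻¹' W}, fun n => ⟨fun U hU => hU.1, ?_⟩,
      fun z => ?_⟩
    · refine ((h𝒱 n).2.image fun W => g ⁻¹' W).subset ?_
      rintro U ⟨-, W, hW, rfl⟩
      exact ⟨W, hW, rfl⟩
    · filter_upwards [hx (g z)] with n hn
      obtain ⟨W, hW, hzW⟩ := hn
      rcases (h𝒱 n).1 hW with h | h
      · exact ⟨g ⁻¹' W, ⟨h.2, W, hW, rfl⟩, hzW⟩
      · rw [h] at hzW
        exact absurd (mem_range_self z) hzW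

theorem exists_clopen {K : Type v} [TopologicalSpace K] [CompactSpace K] [T2Space K]
    [TotallyDisconnectedSpace K] {F W : Set K} (hF : IsClosed F) (hW : IsOpen W) (h : F ⊆ W) :
    ∃ C, IsClopen C ∧ F ⊆ C ∧ C ⊆ W := by
  have h1 : ∀ x : F, ∃ C, IsClopen C ∧ x.1 ∈ C ∧ C ⊆ W := fun x =>
    compact_exists_isClopen_in_isOpen hW (h x.2)
  choose C hC hxC hCW using h1
  obtain ⟨t, ht⟩ := hF.isCompact.elim_finite_subcover C (fun x => (hC x).isOpen)
    (fun x hx => mem_iUnion.2 ⟨⟨x, hx⟩, hxC _⟩)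
  exact ⟨⋃ i ∈ t, C i, isClopen_biUnion_finset (fun i _ => hC i), ht,
    iUnion₂_subset fun i _ => hCW i⟩

/-- One step of the proof of the sum theorem. -/
theorem step {Z : Type v} [TopologicalSpace Z] [T2Space Z] [NormalSpace Z] (K : Set Z)
    (hK : IsCompact K) (hd : TotallyDisconnectedSpace K) (A B : Set Z) (hA : IsClosed A)
    (hB : IsClosed B) (hAB : Disjoint A B) :
    ∃ A' B' : Set Z, IsClosed A' ∧ IsClosed B' ∧ Disjoint A' B' ∧ A ⊆ interior A' ∧
      B ⊆ interior B' ∧ K ⊆ A' ∪ B' := by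
  have hKc : CompactSpace K := isCompact_iff_compactSpace.1 hK
  obtain ⟨C, hC, hAC, hCB⟩ := exists_clopen (K := K) (F := Subtype.val ⁻¹' A)
    (W := Subtype.val ⁻¹' Bᶜ) (hA.preimage continuous_subtype_val)
    (hB.isOpen_compl.preimage continuous_subtype_val)
    (preimage_mono (disjoint_left.1 hAB))
  have hC' : IsClosed ((Subtype.val : K → Z) '' C) :=
    (hC.isClosed.isCompact.image continuous_subtype_val).isClosed
  have hD' : IsClosed ((Subtype.val : K → Z) '' Cᶜ) :=
    (hC.compl.isClosed.isCompact.image continuous_subtype_val).isClosed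
  have hdis : A ∪ (Subtype.val : K → Z) '' C ⊆ (B ∪ (Subtype.val : K → Z) '' Cᶜ)ᶜ := by
    rintro x (hx | ⟨z, hz, rfl⟩) (h | ⟨z', hz', h⟩)
    · exact disjoint_left.1 hAB hx h
    · rw [← h] at hx
      exact hz' (hAC hx)
    · exact hCB hz h
    · exact hz' ((Subtype.ext h : z' = z) ▸ hz)
  obtain ⟨G, hG, hAG, hGB⟩ := normal_exists_closure_subset (hA.union hC')
    (hB.union hD').isOpen_compl hdis
  obtain ⟨H, hH, hBH, hHG⟩ := normal_exists_closure_subset (hB.union hD')
    isClosed_closure.isOpen_compl (subset_compl_comm.1 hGB)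
  refine ⟨closure G, closure H, isClosed_closure, isClosed_closure, ?_, ?_, ?_, ?_⟩
  · rw [disjoint_left]
    exact fun x hx hx' => hHG hx' hx
  · exact (subset_union_left.trans hAG).trans (interior_maximal subset_closure hG)
  · exact (subset_union_left.trans hBH).trans (interior_maximal subset_closure hH)
  · intro x hx
    by_cases hxC : (⟨x, hx⟩ : K) ∈ C
    · exact Or.inl (subset_closure (hAG (Or.inr ⟨_, hxC, rfl⟩)))
    · exact Or.inr (subset_closure (hBH (Or.inr ⟨_, hxC, rfl⟩)))

/-- A normal Hausdorff space which is a countable union of compact totally disconnected subspaces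
has a base of clopen sets. -/
theorem sum_theorem {Z : Type v} [TopologicalSpace Z] [T2Space Z] [NormalSpace Z] (K : ℕ → Set Z)
    (hK : ∀ n, IsCompact (K n)) (hd : ∀ n, TotallyDisconnectedSpace (K n))
    (hc : ⋃ n, K n = univ) : IndLE 0 Z := by
  intro p O hO hp
  choose! A' B' h1 h2 h3 h4 h5 h6 using fun (n : ℕ) (A B : Set Z) (hA : IsClosed A)
    (hB : IsClosed B) (hAB : Disjoint A B) => step (K n) (hK n) (hd n) A B hA hB hAB
  let s : ℕ → Set Z × Set Z := fun n =>
    Nat.rec (({p} : Set Z), Oᶜ) (fun n q => (A' n q.1 q.2, B' n q.1 q.2)) n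
  have hs : ∀ n, s (n + 1) = (A' n (s n).1 (s n).2, B' n (s n).1 (s n).2) := fun n => rfl
  have hinv : ∀ n, IsClosed (s n).1 ∧ IsClosed (s n).2 ∧ Disjoint (s n).1 (s n).2 := by
    intro n
    induction n with
    | zero =>
      exact ⟨isClosed_singleton, hO.isClosed_compl, disjoint_left.2 fun x hx hx' => by
        rw [mem_singleton_iff.1 hx] at hx'
        exact hx' hp⟩
    | succ n ih =>
      rw [hs]
      exact ⟨h1 n _ _ ih.1 ih.2.1 ih.2.2, h2 n _ _ ih.1 ih.2.1 ih.2.2,
        h3 n _ _ ih.1 ih.2.1 ih.2.2⟩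
  have hA : ∀ n, (s n).1 ⊆ interior (s (n + 1)).1 := fun n => by
    rw [hs]
    exact h4 n _ _ (hinv n).1 (hinv n).2.1 (hinv n).2.2
  have hB : ∀ n, (s n).2 ⊆ interior (s (n + 1)).2 := fun n => by
    rw [hs]
    exact h5 n _ _ (hinv n).1 (hinv n).2.1 (hinv n).2.2
  have hcov : ∀ n, K n ⊆ (s (n + 1)).1 ∪ (s (n + 1)).2 := fun n => by
    rw [hs]
    exact h6 n _ _ (hinv n).1 (hinv n).2.1 (hinv n).2.2
  have hAm : Monotone fun n => (s n).1 := monotone_nat_of_le_succ fun n =>
    (hA n).trans interior_subset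
  have hBm : Monotone fun n => (s n).2 := monotone_nat_of_le_succ fun n =>
    (hB n).trans interior_subset
  have hopA : IsOpen (⋃ n, (s n).1) := by
    rw [isOpen_iff_mem_nhds]
    intro x hx
    obtain ⟨n, hn⟩ := mem_iUnion.1 hx
    exact Filter.mem_of_superset (isOpen_interior.mem_nhds (hA n hn))
      (interior_subset.trans (subset_iUnion (fun n => (s n).1) (n + 1)))
  have hopB : IsOpen (⋃ n, (s n).2) := by
    rw [isOpen_iff_mem_nhds]
    intro x hx
    obtain ⟨n, hn⟩ := mem_iUnion.1 hx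
    exact Filter.mem_of_superset (isOpen_interior.mem_nhds (hB n hn))
      (interior_subset.trans (subset_iUnion (fun n => (s n).2) (n + 1)))
  have hdis : Disjoint (⋃ n, (s n).1) (⋃ n, (s n).2) := by
    rw [disjoint_left]
    intro x hx hx'
    obtain ⟨n, hn⟩ := mem_iUnion.1 hx
    obtain ⟨m, hm⟩ := mem_iUnion.1 hx'
    exact disjoint_left.1 (hinv (max n m)).2.2 (hAm (le_max_left n m) hn)
      (hBm (le_max_right n m) hm)
  have hcompl : (⋃ n, (s n).1)ᶜ = ⋃ n, (s n).2 := by
    apply Subset.antisymm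
    · intro x hx
      have hxK : x ∈ ⋃ n, K n := by rw [hc]; exact mem_univ x
      obtain ⟨n, hn⟩ := mem_iUnion.1 hxK
      rcases hcov n hn with h | h
      · exact absurd (mem_iUnion.2 ⟨n + 1, h⟩) hx
      · exact mem_iUnion.2 ⟨n + 1, h⟩
    · exact fun x hx hx' => disjoint_left.1 hdis hx' hx
  refine ⟨⋃ n, (s n).1, hopA, mem_iUnion.2 ⟨0, rfl⟩, ?_, ?_⟩
  · intro x hx
    by_contra hxO
    exact disjoint_left.1 hdis hx (mem_iUnion.2 ⟨0, hxO⟩)
  · rw [← isClopen_iff_frontier_eq_empty]
    exact ⟨by rw [← isOpen_compl_iff, hcompl]; exact hopB, hopA⟩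

theorem sigma_compact (Y : Type u) (Z : Type v) [TopologicalSpace Y] [TopologicalSpace Z]
    [T3Space Z] [SigmaCompactSpace Z] (f : Y → Z) (hY : Hurewicz Y) (hind : ind Y ≤ 0)
    (hf : Continuous f) (hb : Function.Bijective f) : ind Z ≤ 0 := by
  have hN : NormalSpace Z := inferInstance
  refine ind_le_zero (sum_theorem (compactCovering Z) (isCompact_compactCovering Z) (fun n => ?_)
    (iUnion_compactCovering Z))
  exact compact_subset Y Z f hY hind hf hb.1 _ (isCompact_compactCovering Z n)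
    (by rw [hb.2.range_eq]; exact subset_univ _)

/-- (1) Let `f : Y → Z` be a continuous injection of a Hurewicz space `Y` with `ind Y ≤ 0` in a
Hausdorff space `Z`. Then `ind K ≤ 0` for all compact subsets `K` of the image of `f`.
(2) If `f` is moreover a bijection and `Z` is regular and `σ`-compact, then `ind Z ≤ 0`.
(3) Hence: let `T₂ ⊆ T₁` be topologies on `X` (in Mathlib's order `T₁ ≤ T₂`) such that `(X, T₂)` is
regular, Hausdorff and `σ`-compact (for example compact Hausdorff), `ind (X, T₁) = 0` and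
`ind (X, T₂) > 0`. Then `(X, T₁)` is not a Hurewicz space. -/
theorem result :
    (∀ (Y : Type u) (Z : Type v) [TopologicalSpace Y] [TopologicalSpace Z] [T2Space Z]
      (f : Y → Z), Hurewicz Y → ind Y ≤ 0 → Continuous f → Function.Injective f →
      ∀ K : Set Z, IsCompact K → K ⊆ range f → ind K ≤ 0) ∧
    (∀ (Y : Type u) (Z : Type v) [TopologicalSpace Y] [TopologicalSpace Z] [T3Space Z]
      [SigmaCompactSpace Z] (f : Y → Z), Hurewicz Y → ind Y ≤ 0 → Continuous f →
      Function.Bijective f → ind Z ≤ 0) ∧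
    (∀ (X : Type u) (T₁ T₂ : TopologicalSpace X), T₁ ≤ T₂ → @T3Space X T₂ →
      @SigmaCompactSpace X T₂ → @ind X T₁ = 0 → 0 < @ind X T₂ → ¬ @Hurewicz X T₁) := by
  refine ⟨fun Y Z _ _ _ f hY hi hf hinj K hK hKf => ?_,
    fun Y Z _ _ _ _ f hY hi hf hb => sigma_compact Y Z f hY hi hf hb,
    fun X T₁ T₂ h12 h3 hs hi1 hi2 hH => ?_⟩
  · have h1 := compact_subset Y Z f hY hi hf hinj K hK hKf
    have h2 : CompactSpace K := isCompact_iff_compactSpace.1 hK
    exact ind_le_zero (indLE_zero_of_totallyDisconnected K)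
  · have h := @sigma_compact X X T₁ T₂ h3 hs id hH hi1.le (continuous_id_iff_le.2 h12)
      Function.bijective_id
    exact absurd h (not_le.2 hi2)

end Pool.Agent.Results.MP_8652de_gt.SigmaCompactTargets
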